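import Pool.Agent.S04750
import Pool.Agent.Helper882.Dirac.Decomp

/-! # MP_4e1fb1_an: sequential closure of the Dirac measures and Baire sigma-algebras on `C(K)`

For every compact Hausdorff space `K`, if the weak* sequential closure of the convex hull of the Dirac
measures is `P(K)`, then the Baire sigma-algebras of the pointwise and of the weak topology of `C(K)`
coincide; the converse fails for a compact Hausdorff space. So the equivalence of Q1 is false. -/

set_option autoImplicit false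

open Pool.Agent.Helper882.Dirac

namespace Pool.Agent.Results.MP_4e1fb1_an.OneImplication

/-- The Baire sigma-algebra of a topology: generated by the continuous real functions. -/
def Ba (X : Type) (t : TopologicalSpace X) : MeasurableSpace X :=
  ⨆ (g : X → ℝ) (_ : @Continuous X ℝ t _ g), MeasurableSpace.comap g (borel ℝ)

/-- The topology of pointwise convergence on `C(K)`. -/
def ptw (K : Type) [TopologicalSpace K] : TopologicalSpace C(K, ℝ) :=
  TopologicalSpace.induced (fun (f : C(K, ℝ)) (x : K) => f x) inferInstance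

/-- The weak topology of the Banach space `C(K)`. -/
def wk (K : Type) [TopologicalSpace K] [CompactSpace K] : TopologicalSpace C(K, ℝ) :=
  ⨅ (φ : C(K, ℝ) →L[ℝ] ℝ), TopologicalSpace.induced (⇑φ) inferInstance

/-- The Dirac measures, as functionals on `C(K)`. -/
def Dir (K : Type) [TopologicalSpace K] [CompactSpace K] : Set (C(K, ℝ) →L[ℝ] ℝ) :=
  {φ | ∃ x : K, ∀ f : C(K, ℝ), φ f = f x}

/-- A set of functionals closed under limits of weak*-convergent sequences. -/
def SeqClosed {K : Type} [TopologicalSpace K] [CompactSpace K] (S : Set (C(K, ℝ) →L[ℝ] ℝ)) : Prop :=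
  ∀ (u : ℕ → C(K, ℝ) →L[ℝ] ℝ) (φ : C(K, ℝ) →L[ℝ] ℝ), (∀ n, u n ∈ S) →
    (∀ f : C(K, ℝ), Filter.Tendsto (fun n => u n f) Filter.atTop (nhds (φ f))) → φ ∈ S

/-- The weak* sequential closure: the smallest weak* sequentially closed set containing `A`. -/
def Seq {K : Type} [TopologicalSpace K] [CompactSpace K] (A : Set (C(K, ℝ) →L[ℝ] ℝ)) :
    Set (C(K, ℝ) →L[ℝ] ℝ) :=
  ⋂₀ {S | A ⊆ S ∧ SeqClosed S}

/-- The probability measures, as positive functionals with value `1` at `1` (Riesz). -/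
def Prob (K : Type) [TopologicalSpace K] [CompactSpace K] : Set (C(K, ℝ) →L[ℝ] ℝ) :=
  {φ | (∀ f : C(K, ℝ), 0 ≤ f → 0 ≤ φ f) ∧ φ 1 = 1}

theorem measurable_of_mem (K : Type) [TopologicalSpace K] [CompactSpace K]
    (h : Seq (convexHull ℝ (Dir K)) = Prob K) (φ : C(K, ℝ) →L[ℝ] ℝ) (hφ : φ ∈ Prob K) :
    @Measurable C(K, ℝ) ℝ (Ba _ (ptw K)) (borel ℝ) φ := by
  letI m : MeasurableSpace C(K, ℝ) := Ba _ (ptw K)
  have hb : (borel ℝ) = (inferInstance : MeasurableSpace ℝ) := (BorelSpace.measurable_eq (α := ℝ)).symm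
  rw [hb]
  rw [← h] at hφ
  refine hφ {φ | Measurable (φ : C(K, ℝ) → ℝ)} ⟨?_, ?_⟩
  · apply convexHull_min
    · rintro ψ ⟨x, hx⟩
      have h1 : @Continuous C(K, ℝ) ℝ (ptw K) _ (ψ : C(K, ℝ) → ℝ) := by
        have : (ψ : C(K, ℝ) → ℝ) = fun f => f x := funext hx
        rw [this]
        exact @Continuous.comp _ _ _ (_) _ _ _ _ (continuous_apply x) continuous_induced_dom
      have h2 : MeasurableSpace.comap (ψ : C(K, ℝ) → ℝ) (borel ℝ) ≤ m :=
        le_iSup₂_of_le (f := fun (g : C(K, ℝ) → ℝ) (_ : @Continuous C(K, ℝ) ℝ (ptw K) _ g) =>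
          MeasurableSpace.comap g (borel ℝ)) (ψ : C(K, ℝ) → ℝ) h1 le_rfl
      rw [hb] at h2
      exact measurable_iff_comap_le.2 h2
    · intro ψ hψ χ hχ a b _ _ _
      have h1 : Measurable (ψ : C(K, ℝ) → ℝ) := hψ
      have h2 : Measurable (χ : C(K, ℝ) → ℝ) := hχ
      have h3 : ((a • ψ + b • χ : C(K, ℝ) →L[ℝ] ℝ) : C(K, ℝ) → ℝ) = fun f => a * ψ f + b * χ f := by
        funext f
        simp
      change Measurable ((a • ψ + b • χ : C(K, ℝ) →L[ℝ] ℝ) : C(K, ℝ) → ℝ)
      rw [h3]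
      exact (h1.const_mul a).add (h2.const_mul b)
  · intro u ψ hu hlim
    exact measurable_of_tendsto_metrizable hu (tendsto_pi_nhds.2 hlim)

theorem pos_measurable (K : Type) [TopologicalSpace K] [CompactSpace K]
    (h : Seq (convexHull ℝ (Dir K)) = Prob K) (P : C(K, ℝ) →L[ℝ] ℝ)
    (hP : ∀ f : C(K, ℝ), 0 ≤ f → 0 ≤ P f) :
    @Measurable C(K, ℝ) ℝ (Ba _ (ptw K)) (borel ℝ) P := by
  letI m : MeasurableSpace C(K, ℝ) := Ba _ (ptw K)
  have hb : (borel ℝ) = (inferInstance : MeasurableSpace ℝ) := (BorelSpace.measurable_eq (α := ℝ)).symm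
  rw [hb]
  by_cases h1 : P 1 = 0
  · have : (P : C(K, ℝ) → ℝ) = fun _ => 0 := by
      funext f
      have hf1 : 0 ≤ ‖f‖ • (1 : C(K, ℝ)) - f := by
        intro x
        have := f.norm_coe_le_norm x
        have h2 := le_abs_self (f x)
        rw [Real.norm_eq_abs] at this
        simp
        linarith
      have hf2 : 0 ≤ ‖f‖ • (1 : C(K, ℝ)) + f := by
        intro x
        have := f.norm_coe_le_norm x
        have h2 := neg_abs_le (f x)
        rw [Real.norm_eq_abs] at this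
        simp
        linarith
      have h3 := hP _ hf1
      have h4 := hP _ hf2
      rw [map_sub, map_smul, h1, smul_zero] at h3
      rw [map_add, map_smul, h1, smul_zero] at h4
      linarith
    rw [this]
    exact measurable_const
  · have h0 : 0 ≤ P 1 := hP 1 (fun _ => zero_le_one)
    have hpos : 0 < P 1 := lt_of_le_of_ne h0 (Ne.symm h1)
    have h2 : ((P 1)⁻¹ • P : C(K, ℝ) →L[ℝ] ℝ) ∈ Prob K := by
      refine ⟨fun f hf => ?_, ?_⟩
      · change 0 ≤ (P 1)⁻¹ * P f
        exact mul_nonneg (inv_nonneg.2 h0) (hP f hf)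
      · change (P 1)⁻¹ * P 1 = 1
        exact inv_mul_cancel₀ h1
    have h3 := measurable_of_mem K h _ h2
    rw [hb] at h3
    have h4 : (P : C(K, ℝ) → ℝ) = fun f => P 1 * ((P 1)⁻¹ • P : C(K, ℝ) →L[ℝ] ℝ) f := by
      funext f
      change P f = P 1 * ((P 1)⁻¹ * P f)
      field_simp
    rw [h4]
    exact h3.const_mul _

theorem Ba_le (K : Type) [TopologicalSpace K] [CompactSpace K] : Ba _ (ptw K) ≤ Ba _ (wk K) := by
  refine iSup_le fun g => iSup_le fun hg => ?_
  have hle : wk K ≤ ptw K := by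
    unfold ptw
    rw [← continuous_iff_le_induced]
    refine @continuous_pi _ _ _ (_) _ _ fun x => ?_
    refine continuous_iInf_dom (i := ContinuousMap.evalCLM ℝ x) ?_
    exact continuous_induced_dom
  have hg' : @Continuous C(K, ℝ) ℝ (wk K) _ g := continuous_le_dom hle hg
  exact le_iSup₂_of_le (f := fun (g : C(K, ℝ) → ℝ) (_ : @Continuous C(K, ℝ) ℝ (wk K) _ g) =>
          MeasurableSpace.comap g (borel ℝ)) g hg' le_rfl

theorem forward (K : Type) [TopologicalSpace K] [CompactSpace K]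
    (h : Seq (convexHull ℝ (Dir K)) = Prob K) : Ba _ (ptw K) = Ba _ (wk K) := by
  apply le_antisymm (Ba_le K)
  refine iSup_le fun g => iSup_le fun hg => ?_
  have h1 := edgar_weak C(K, ℝ) g hg
  refine h1.comap_le.trans (iSup_le fun φ => ?_)
  obtain ⟨P, Q, hP, hQ, rfl⟩ := exists_pos_decomp K φ
  letI m : MeasurableSpace C(K, ℝ) := Ba _ (ptw K)
  have hb : (borel ℝ) = (inferInstance : MeasurableSpace ℝ) := (BorelSpace.measurable_eq (α := ℝ)).symm
  have h2 := pos_measurable K h P hP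
  have h3 := pos_measurable K h Q hQ
  rw [hb] at h2 h3 ⊢
  have h4 : Measurable ((P - Q : C(K, ℝ) →L[ℝ] ℝ) : C(K, ℝ) → ℝ) := by
    have : ((P - Q : C(K, ℝ) →L[ℝ] ℝ) : C(K, ℝ) → ℝ) = fun f => P f - Q f := rfl
    rw [this]
    exact h2.sub h3
  exact h4.comap_le

/-- The implication `Seq (co Δ_K) = P(K) → Ba(C_p(K)) = Ba(C_w(K))` holds for every compact Hausdorff
space, and there is a compact Hausdorff space `K` with `Ba(C_p(K)) = Ba(C_w(K))` but
`Seq (co Δ_K) ≠ P(K)`. -/
theorem result :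
    (∀ (K : Type) [TopologicalSpace K] [CompactSpace K] [T2Space K],
      Seq (convexHull ℝ (Dir K)) = Prob K → Ba C(K, ℝ) (ptw K) = Ba C(K, ℝ) (wk K)) ∧
    (∃ (K : Type) (_ : TopologicalSpace K) (_ : CompactSpace K) (_ : T2Space K),
      Ba C(K, ℝ) (ptw K) = Ba C(K, ℝ) (wk K) ∧ Seq (convexHull ℝ (Dir K)) ≠ Prob K) ∧
    ¬ ∀ (K : Type) [TopologicalSpace K] [CompactSpace K] [T2Space K],
      (Seq (convexHull ℝ (Dir K)) = Prob K ↔ Ba C(K, ℝ) (ptw K) = Ba C(K, ℝ) (wk K)) := by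
  have key : ∃ (K : Type) (_ : TopologicalSpace K) (_ : CompactSpace K) (_ : T2Space K),
      Ba C(K, ℝ) (ptw K) = Ba C(K, ℝ) (wk K) ∧ Seq (convexHull ℝ (Dir K)) ≠ Prob K := by
    by_contra hcon
    apply Pool.Agent.S04750.result
    intro K _ _ _ hK
    by_contra hne
    exact hcon ⟨K, inferInstance, inferInstance, inferInstance, hK, hne⟩
  refine ⟨fun K _ _ _ h => forward K h, key, fun hall => ?_⟩
  obtain ⟨K, i1, i2, i3, hB, hS⟩ := key
  exact hS ((hall K).2 hB)

end Pool.Agent.Results.MP_4e1fb1_an.OneImplication
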